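import Pool.Agent.H15.Inj2

set_option autoImplicit false
open Set Cardinal

universe u

namespace Pool.Agent.Results.MP_5f3b23_lc.Stat

/-- the ordinals below the successor cardinal of lam, with their well-order -/
abbrev Sc (lam : Cardinal.{u}) : Type u := (Order.succ lam).ord.ToType

/-- B is a cofinal subset of the ordinal a: a set of ordinals below a whose supremum is a -/
def CofIn {W : Type u} [LinearOrder W] (B : Set W) (a : W) : Prop := B ⊆ Iio a ∧ IsLUB B a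

/-- the set A(d) -/
def A {W L : Type u} [LinearOrder W] (d : W → W → L) : Set W :=
  {a | ∀ B, CofIn B a → ∃ η < a, ∃ B' ⊆ B, CofIn B' a ∧ InjOn (d η) B'}

/-- for every d from lam+ x lam+ to lam, the set of ordinals of cofinality different from
(even: greater than) cf(lam) outside A(d) is stationary in lam+ -/
def Fails (lam : Cardinal.{u}) : Prop :=
  ∀ d : Sc lam → Sc lam → lam.ord.ToType,
    IsStationary ({a | Order.cof (Iio a) ≠ lam.ord.cof} \ A d) ∧
    IsStationary ({a | lam.ord.cof < Order.cof (Iio a)} \ A d)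

/-- U is a normal, fine, kappa-complete ultrafilter on the subsets of T of size below kappa -/
def NormalMeasure (κ : Cardinal.{u}) (T : Type u) (U : Ultrafilter (Set T)) : Prop :=
  {x : Set T | #x < κ} ∈ U ∧
  (∀ S : Set (Set (Set T)), #S < κ → (∀ s ∈ S, s ∈ U) → ⋂₀ S ∈ U) ∧
  (∀ t : T, {x : Set T | t ∈ x} ∈ U) ∧
  (∀ f : Set T → T, {x | f x ∈ x} ∈ U → ∃ t, {x | f x = t} ∈ U)

/-- supercompact cardinal -/
def Supercompact (κ : Cardinal.{u}) : Prop :=
  ℵ₀ < κ ∧ ∀ T : Type u, κ ≤ #T → ∃ U : Ultrafilter (Set T), NormalMeasure κ T U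

/-- the Chang property from (lam+, lam) to (aleph_1, aleph_0) -/
def Chang (lam : Cardinal.{u}) : Prop :=
  ∀ (L : FirstOrder.Language.{0, 0}) [Countable L.Symbols] (M : Type u) [L.Structure M]
    (r : L.Relations 1), #M = Order.succ lam →
    #{m : M | FirstOrder.Language.Structure.RelMap r ![m]} = lam →
    ∃ N : L.ElementarySubstructure M, #N = ℵ₁ ∧
      #{m : M | m ∈ N ∧ FirstOrder.Language.Structure.RelMap r ![m]} = ℵ₀

theorem fails_of {lam : Cardinal.{u}}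
    (h : ∀ (d : Sc lam → Sc lam → lam.ord.ToType) (C : Set (Sc lam)), IsClub C →
      ∃ a ∈ C, Order.cof lam.ord.ToType < Order.cof (Iio a) ∧ ∃ B, (B ⊆ Iio a ∧ IsLUB B a) ∧
      ∀ η < a, ∀ B' ⊆ B, (B' ⊆ Iio a ∧ IsLUB B' a) → ¬ InjOn (d η) B') : Fails lam := by
  intro d
  have h2 : IsStationary ({a | lam.ord.cof < Order.cof (Iio a)} \ A d) := by
    intro C hC
    obtain ⟨a, haC, h1, B, hB, h3⟩ := h d C hC
    rw [Ordinal.cof_toType] at h1
    refine ⟨a, ⟨h1, fun hA => ?_⟩, haC⟩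
    obtain ⟨η, hη, B', h4, h5, h6⟩ := hA B hB
    exact h3 η hη B' h4 h5 h6
  exact ⟨h2.mono fun a ha => ⟨ne_of_gt ha.1, ha.2⟩, h2⟩

theorem basics {lam : Cardinal.{u}} (h0 : ℵ₀ ≤ lam) :
    NoMaxOrder (Sc lam) ∧ (∀ a : Sc lam, #(Iio a) ≤ lam) ∧ lam < Order.cof (Sc lam) := by
  have h3 : lam < Order.cof (Sc lam) := by
    rw [Ordinal.cof_toType, (isRegular_succ h0).cof_ord]; exact Order.lt_succ lam
  refine ⟨?_, fun a => Order.lt_succ_iff.1 (Cardinal.mk_Iio_toType_ord_lt a), h3⟩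
  exact Cardinal.noMaxOrder (h0.trans (Order.le_succ lam))

theorem result :
    (∀ κ : Cardinal.{u}, Supercompact κ → ∃ lam : Cardinal.{u}, lam.IsSingular ∧ Fails lam) ∧
    (∀ κ lam : Cardinal.{u}, ℵ₀ < κ → lam.IsStrongLimit → lam.ord.cof < κ → κ ≤ lam →
      (∃ U : Ultrafilter (Set (Sc lam)), NormalMeasure κ (Sc lam) U) → Fails lam) ∧
    (∀ lam : Cardinal.{u}, ℵ₀ < lam → lam.IsStrongLimit → lam.ord.cof = ℵ₀ → Chang lam →
      Fails lam) := by
  have h2 : ∀ κ lam : Cardinal.{u}, ℵ₀ < κ → lam.IsStrongLimit → lam.ord.cof < κ → κ ≤ lam →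
      (∃ U : Ultrafilter (Set (Sc lam)), NormalMeasure κ (Sc lam) U) → Fails lam := by
    rintro κ lam hκ hl hc hle ⟨U, u1, u2, u3, u4⟩
    have h0 : ℵ₀ ≤ lam := hκ.le.trans hle
    obtain ⟨b1, b2, b3⟩ := basics h0
    refine fails_of fun d C hC => ?_
    exact Pool.Agent.H15.Inj.sc_main hl h0 (by simp) (Pool.Agent.H15.Inj.iic_lt h0) b2 b3
      (by rw [Ordinal.cof_toType]; exact hc) hle U u1 u2 u3 u4 d hC
  refine ⟨fun κ hκ => ?_, h2, fun lam h1 hl hc hch => ?_⟩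
  · obtain ⟨lam, hl, hc, hle⟩ := Pool.Agent.H15.Inj.exists_lam κ
    have h0 : ℵ₀ < lam := lt_of_lt_of_le hκ.1 hle
    refine ⟨lam, ⟨h0.le, by rw [hc]; exact h0.ne⟩, h2 κ lam hκ.1 hl (hc ▸ hκ.1) hle (hκ.2 _ ?_)⟩
    simpa using hle.trans (Order.le_succ lam)
  · obtain ⟨b1, b2, b3⟩ := basics h1.le
    refine fails_of fun d C hC => ?_
    refine Pool.Agent.H15.Inj.cc_main hl ?_ (by simp) (Pool.Agent.H15.Inj.iic_lt h1.le) b2 b3
      (by rw [Ordinal.cof_toType]; exact hc) (fun r hr => hch _ _ r (by simp) hr) d hC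
    rw [← succ_aleph0]; exact Order.succ_le_of_lt h1

end Pool.Agent.Results.MP_5f3b23_lc.Stat
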